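import Pool.Agent.TRX2.SL4

/-! # [ALL2-SL5] Hilbert reciprocity for norm forms: integral form -/

set_option autoImplicit false
set_option linter.unusedSectionVars false

open NumberField Ideal IsDedekindDomain
open scoped Classical

namespace TRX2

open WithZero TRX TU TT TRG TRP

variable {F : Type} [Field F] [NumberField F]

theorem hr_qr_mul (v : HeightOneSpectrum (𝓞 F)) (h2 : (2 : 𝓞 F) ∉ v.asIdeal) (a b : 𝓞 F) :
    TT.qr v (a * b) = TT.qr v a * TT.qr v b := qr_mul v h2 a b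

theorem hr_qr_prod (v : HeightOneSpectrum (𝓞 F)) (h2 : (2 : 𝓞 F) ∉ v.asIdeal) {ι : Type} (s : Finset ι) (f : ι → 𝓞 F) :
    TT.qr v (∏ i ∈ s, f i) = ∏ i ∈ s, TT.qr v (f i) := by
  induction s using Finset.induction_on with
  | empty =>
    rw [Finset.prod_empty, Finset.prod_empty]
    have h5 := qr_sq v (a := 1) (fun h6 => v.isPrime.ne_top ((Ideal.eq_top_iff_one _).2 h6))
    rwa [one_pow] at h5
  | insert i s hi ih => rw [Finset.prod_insert hi, Finset.prod_insert hi, hr_qr_mul v h2, ih]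

variable [IsTotallyComplex F]

/-- the symbols of a unit -/
theorem hr_unit (hodd : Odd (classNumber F)) (u : (𝓞 F)ˣ) {T c : 𝓞 F} {W : Finset (HeightOneSpectrum (𝓞 F))}
    (hW : span {T ^ 2 + 4 * c} = ∏ v ∈ W, v.asIdeal ^ classNumber F)
    (h2 : ∀ v ∈ W, (2 : 𝓞 F) ∉ v.asIdeal) : ∏ w ∈ W, TT.qr w (u : 𝓞 F) = 1 := by
  -- compare with a prime `v` outside `W` not above `2`
  have hTc : T ^ 2 + 4 * c ≠ 0 := by
    intro h0
    rw [h0] at hW
    have h1 : (∏ v ∈ W, v.asIdeal ^ classNumber F) ≠ ⊥ := by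
      rw [← Ideal.zero_eq_bot, Finset.prod_ne_zero_iff]
      exact fun v _ => pow_ne_zero _ v.ne_bot
    apply h1
    rw [← hW, Ideal.span_singleton_eq_bot]
  obtain ⟨v, hv⟩ := r2_exists_prime (mul_ne_zero (two_ne_zero : (2 : 𝓞 F) ≠ 0) hTc)
  have hav : T ^ 2 + 4 * c ∉ v.asIdeal := fun h => hv (v.asIdeal.mul_mem_left _ h)
  obtain ⟨α, hα⟩ := r2_class_gen v.asIdeal
  have h1 := TRC.recC hodd hodd hW h2 v hav hodd hα.symm
  have h3 : span {(u : 𝓞 F) * α} = v.asIdeal ^ classNumber F := by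
    rw [hα]
    exact Ideal.span_singleton_mul_left_unit u.isUnit α
  have h4 := TRC.recC hodd hodd hW h2 v hav hodd h3
  have h5 : ∏ w ∈ W, TT.qr w ((u : 𝓞 F) * α) = (∏ w ∈ W, TT.qr w (u : 𝓞 F)) * ∏ w ∈ W, TT.qr w α := by
    rw [← Finset.prod_mul_distrib]
    exact Finset.prod_congr rfl fun w hw => hr_qr_mul w (h2 w hw) _ _
  rw [h5, h1] at h4
  have h6 : chd T c v ≠ 0 := by
    unfold chd
    split_ifs <;> norm_num
  exact mul_right_cancel₀ h6 (h4.trans (one_mul _).symm)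

/-- the product of the symbols of `a` -/
theorem hr_prod (hodd : Odd (classNumber F)) {T c : 𝓞 F} {W : Finset (HeightOneSpectrum (𝓞 F))}
    (hW : span {T ^ 2 + 4 * c} = ∏ v ∈ W, v.asIdeal ^ classNumber F)
    (h2 : ∀ v ∈ W, (2 : 𝓞 F) ∉ v.asIdeal) {a : 𝓞 F} {A : Finset (HeightOneSpectrum (𝓞 F))}
    (hA : span {a} = ∏ v ∈ A, v.asIdeal ^ classNumber F) (hAW : ∀ v ∈ A, T ^ 2 + 4 * c ∉ v.asIdeal) :
    ∏ w ∈ W, TT.qr w a = ∏ v ∈ A, chd T c v := by
  choose α hα using fun v : HeightOneSpectrum (𝓞 F) => r2_class_gen v.asIdeal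
  have h1 : span {a} = span {∏ v ∈ A, α v} := by
    rw [hA, ← Ideal.prod_span_singleton]
    exact Finset.prod_congr rfl fun v _ => hα v
  rw [Ideal.span_singleton_eq_span_singleton] at h1
  obtain ⟨u, hu⟩ := h1.symm
  have h3 : ∀ w ∈ W, TT.qr w a = (∏ v ∈ A, TT.qr w (α v)) * TT.qr w (u : 𝓞 F) := by
    intro w hw
    rw [← hu, hr_qr_mul w (h2 w hw), hr_qr_prod w (h2 w hw)]
  rw [Finset.prod_congr rfl h3, Finset.prod_mul_distrib, hr_unit hodd u hW h2, mul_one, Finset.prod_comm]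
  refine Finset.prod_congr rfl fun v hv => ?_
  exact TRC.recC hodd hodd hW h2 v (hAW v hv) hodd (hα v).symm

theorem hr_even_of_sq {v : HeightOneSpectrum (𝓞 F)} {a : F} (h : IsSquare (algebraMap F (v.adicCompletion F) a)) :
    IsSquare (v.valuation F a) := by
  obtain ⟨s, hs⟩ := h
  refine ⟨Valued.v s, ?_⟩
  rw [← hr_val_coe, hs, map_mul]

/-- **Hilbert reciprocity**, integral form -/
theorem hrec_core (hodd : Odd (classNumber F)) {p : HeightOneSpectrum (𝓞 F)} (h2p : (2 : 𝓞 F) ∈ p.asIdeal)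
    {z δ : 𝓞 F} {A B : Finset (HeightOneSpectrum (𝓞 F))} (hA : span {z} = ∏ v ∈ A, v.asIdeal ^ classNumber F)
    (hB : span {δ} = ∏ v ∈ B, v.asIdeal ^ classNumber F) (hp : (p ∈ A ∧ p ∉ B) ∨ (p ∉ A ∧ p ∈ B))
    (hloc : ∀ v, v ≠ p → NmAt v (δ : F) (z : F))
    (htp : ∃ t s c : F, s ≠ 0 ∧ p.valuation F c ≤ 1 ∧ (z : F) - δ * t ^ 2 = (1 + 4 * c) * s ^ 2) :
    NmAt p (δ : F) (z : F) := by
  have hspan0 : ∀ {a : 𝓞 F} {A : Finset (HeightOneSpectrum (𝓞 F))},
      span {a} = ∏ v ∈ A, v.asIdeal ^ classNumber F → a ≠ 0 := by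
    rintro a A hA rfl
    have h1 : (∏ v ∈ A, v.asIdeal ^ classNumber F) ≠ ⊥ := by
      rw [← Ideal.zero_eq_bot, Finset.prod_ne_zero_iff]
      exact fun v _ => pow_ne_zero _ v.ne_bot
    apply h1
    rw [← hA, Ideal.span_singleton_eq_bot]
  have hz0 := hspan0 hA
  have hδ0 := hspan0 hB
  have hzF : (z : F) ≠ 0 := RingOfIntegers.coe_ne_zero_iff.2 hz0
  have hδF : (δ : F) ≠ 0 := RingOfIntegers.coe_ne_zero_iff.2 hδ0
  obtain ⟨tp, sp, cp, hsp, hcp, htp⟩ := htp
  have hpv2 : p.valuation F (2 : F) < 1 := by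
    have h3 := (HeightOneSpectrum.valuation_lt_one_iff_mem (K := F) p (2 : 𝓞 F)).2 h2p
    change p.valuation F ((2 : 𝓞 F) : F) < 1 at h3
    rwa [g1_two] at h3
  have hpv4 : p.valuation F (4 : F) < 1 := by
    have e : (4 : F) = 2 * 2 := by norm_num
    rw [e, map_mul]
    exact mul_lt_one_of_lt_of_le hpv2 hpv2.le
  have hunit : ∀ c : F, p.valuation F c ≤ 1 → p.valuation F (1 + 4 * c) = 1 := by
    intro c hc
    refine Valuation.map_one_add_of_lt _ ?_
    rw [map_mul]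
    exact mul_lt_one_of_lt_of_le hpv4 hc
  have hone : ∀ c : F, p.valuation F c ≤ 1 → 1 + 4 * c ≠ 0 := by
    intro c hc h0
    have := hunit c hc
    rw [h0, map_zero] at this
    exact zero_ne_one this
  have hCp0 : (z : F) - δ * tp ^ 2 ≠ 0 := by
    rw [htp]
    exact mul_ne_zero (hone cp hcp) (pow_ne_zero 2 hsp)
  -- the bad primes
  have h2span : span {(2 : 𝓞 F)} ≠ 0 := by
    rw [Ne, Ideal.zero_eq_bot, Ideal.span_singleton_eq_bot]
    exact two_ne_zero
  have hfin : {v : HeightOneSpectrum (𝓞 F) | (2 : 𝓞 F) ∈ v.asIdeal}.Finite :=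
    (Ideal.finite_factors h2span).subset fun v hv => Ideal.dvd_span_singleton.2 hv
  have hmem2 : ∀ v, v ∈ hfin.toFinset ↔ (2 : 𝓞 F) ∈ v.asIdeal := fun v => by
    rw [Set.Finite.mem_toFinset]
    rfl
  obtain ⟨S, hS⟩ : ∃ S : Finset (HeightOneSpectrum (𝓞 F)), S = hfin.toFinset ∪ (A ∪ B) := ⟨_, rfl⟩
  have hSmem : ∀ v, v ∈ S ↔ ((2 : 𝓞 F) ∈ v.asIdeal ∨ v ∈ A ∨ v ∈ B) := by
    intro v
    rw [hS, Finset.mem_union, Finset.mem_union, hmem2]
  have hpS : p ∈ S := (hSmem p).2 (Or.inl h2p)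
  -- the local data
  have hdata : ∀ v : HeightOneSpectrum (𝓞 F), ∃ (τ : v.adicCompletion F) (n : ℕ),
      (v = p → τ = algebraMap F (v.adicCompletion F) tp) ∧ ∀ t : v.adicCompletion F,
        Valued.v (τ - t) ≤ exp (-(n : ℤ)) →
        (v ≠ p → IsSquare (algebraMap F (v.adicCompletion F) z - algebraMap F (v.adicCompletion F) δ * t ^ 2)) ∧
        (v = p → Valued.v ((algebraMap F (v.adicCompletion F) z - algebraMap F (v.adicCompletion F) δ * t ^ 2) -
          (algebraMap F (v.adicCompletion F) z - algebraMap F (v.adicCompletion F) δ * τ ^ 2)) <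
          (Valued.v (4 * (algebraMap F (v.adicCompletion F) z - algebraMap F (v.adicCompletion F) δ * τ ^ 2)) :
            WithZero (Multiplicative ℤ))) := by
    intro v
    have hchar : CharZero (v.adicCompletion F) :=
      charZero_of_injective_algebraMap (algebraMap F (v.adicCompletion F)).injective
    by_cases hvp : v = p
    · subst hvp
      obtain ⟨n, hn⟩ := hr_near0 v (δ := algebraMap F (v.adicCompletion F) δ) (z := algebraMap F (v.adicCompletion F) z)
        (τ := algebraMap F (v.adicCompletion F) tp) (by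
          rw [← map_pow, ← map_mul, ← map_sub]
          exact (map_ne_zero _).2 hCp0)
      exact ⟨_, n, fun _ => rfl, fun t ht => ⟨fun h => absurd rfl h, fun _ => hn t ht⟩⟩
    · obtain ⟨u, τ, hu, h⟩ := hr_u ((map_ne_zero (algebraMap F (v.adicCompletion F))).2 hδF)
        ((map_ne_zero (algebraMap F (v.adicCompletion F))).2 hzF) (hloc v hvp)
      obtain ⟨n, hn⟩ := hr_near v hu h
      exact ⟨τ, n, fun h => absurd h hvp, fun t ht => ⟨fun _ => (hn t ht).1, fun h => absurd h hvp⟩⟩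
  choose τ n hτ hτn using hdata
  obtain ⟨t, ht⟩ := hr_wa S τ (∑ v ∈ S, n v)
  have ht' : ∀ v ∈ S, Valued.v (τ v - algebraMap F (v.adicCompletion F) t) ≤ exp (-(n v : ℤ)) := by
    intro v hv
    refine (ht v hv).trans ?_
    rw [exp_le_exp]
    have h1 : n v ≤ ∑ v ∈ S, n v := Finset.single_le_sum (fun _ _ => Nat.zero_le _) hv
    have h2 : (n v : ℤ) ≤ ((∑ v ∈ S, n v : ℕ) : ℤ) := by exact_mod_cast h1
    omega
  obtain ⟨C, hC⟩ : ∃ C : F, C = (z : F) - δ * t ^ 2 := ⟨_, rfl⟩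
  have hCv : ∀ v : HeightOneSpectrum (𝓞 F), algebraMap F (v.adicCompletion F) C =
      algebraMap F (v.adicCompletion F) z - algebraMap F (v.adicCompletion F) δ *
        (algebraMap F (v.adicCompletion F) t) ^ 2 := by
    intro v
    rw [hC, map_sub, map_mul, map_pow]
  have hCsq : ∀ v ∈ S, v ≠ p → IsSquare (algebraMap F (v.adicCompletion F) C) := by
    intro v hv hvp
    rw [hCv]
    exact (hτn v _ (ht' v hv)).1 hvp
  have hCp : p.valuation F (C - (z - δ * tp ^ 2)) < p.valuation F (4 * (z - δ * tp ^ 2)) := by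
    have h1 := (hτn p _ (ht' p hpS)).2 rfl
    rw [hτ p rfl, ← hCv, ← map_pow, ← map_mul, ← map_sub, ← map_sub, ← map_ofNat (algebraMap F (p.adicCompletion F)) 4,
      ← map_mul, hr_val_coe, hr_val_coe] at h1
    exact h1
  obtain ⟨m, hm⟩ : ∃ m : F, m = (C - (z - δ * tp ^ 2)) / (4 * (z - δ * tp ^ 2)) := ⟨_, rfl⟩
  have h4Cp : (4 : F) * (z - δ * tp ^ 2) ≠ 0 := mul_ne_zero (by norm_num) hCp0
  have hvm : p.valuation F m < 1 := by
    rw [hm, map_div₀]
    exact (div_lt_one₀ (zero_lt_iff.2 ((Valuation.ne_zero_iff _).2 h4Cp))).2 hCp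
  have hCm : C = (1 + 4 * (cp + m + 4 * (cp * m))) * sp ^ 2 := by
    have e1 : C = (z - δ * tp ^ 2) * (1 + 4 * m) := by
      rw [hm]
      field_simp
      ring
    rw [e1, htp]
    ring
  have hcm : p.valuation F (cp + m + 4 * (cp * m)) ≤ 1 := by
    refine Valuation.map_add_le _ (Valuation.map_add_le _ hcp hvm.le) ?_
    rw [map_mul, map_mul]
    exact mul_le_one' hpv4.le (mul_le_one' hcp hvm.le)
  have hC0 : C ≠ 0 := by
    rw [hCm]
    exact mul_ne_zero (hone _ hcm) (pow_ne_zero 2 hsp)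
  -- the integral representative
  obtain ⟨x, C', W, hx, hCx, hW⟩ := x0_step hodd hC0
  have hC'0 := hspan0 hW
  have hC'F : (C' : F) ≠ 0 := RingOfIntegers.coe_ne_zero_iff.2 hC'0
  have hC'eq : (C' : F) = C / x ^ 2 := by
    rw [hCx]
    field_simp
  have hC'sq : ∀ v ∈ S, v ≠ p → IsSquare (algebraMap F (v.adicCompletion F) (C' : F)) := by
    intro v hv hvp
    rw [hC'eq, map_div₀, map_pow]
    exact (hCsq v hv hvp).div (IsSquare.sq _)
  have hWnot : ∀ v ∈ W, ¬ IsSquare (v.valuation F (C' : F)) := by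
    intro v hv
    obtain ⟨h1, h2⟩ := n2_exact hW v hv
    exact n2_not_sq hodd v h1 h2
  have hC'p : (C' : F) = (1 + 4 * (cp + m + 4 * (cp * m))) * (sp / x) ^ 2 := by
    rw [hC'eq, hCm]
    field_simp
  have hSW : ∀ v ∈ S, v ∉ W := by
    intro v hv hvW
    by_cases hvp : v = p
    · subst hvp
      apply hWnot v hvW
      rw [hC'p, map_mul, hunit _ hcm, one_mul, map_pow]
      exact IsSquare.sq _
    · exact hWnot v hvW (hr_even_of_sq (hC'sq v hv hvp))
  have hC'v : ∀ v ∈ S, C' ∉ v.asIdeal := fun v hv h => hSW v hv (x0_mem hW h)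
  have hW2 : ∀ v ∈ W, (2 : 𝓞 F) ∉ v.asIdeal := fun v hv h => hSW v ((hSmem v).2 (Or.inl h)) hv
  obtain ⟨T, c, hTc⟩ : ∃ T c : 𝓞 F, C' = T ^ 2 + 4 * c := by
    apply glob_four
    intro v hv
    have hvS : v ∈ S := (hSmem v).2 (Or.inl hv)
    apply locSq_of_ur (hC'v v hvS)
    by_cases hvp : v = p
    · subst hvp
      exact TRH.ur_of_form v hv (div_ne_zero hsp hx) hcm hC'p
    · exact (x0_sq hC'F (hC'sq v hvS hvp)).ur
  rw [hTc] at hW
  -- the symbols at the primes of `W`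
  have hsym : ∀ w ∈ W, TT.qr w (z * δ) = 1 := by
    intro w hw
    have hwS : w ∉ S := fun h => hSW w h hw
    rw [hSmem, not_or, not_or] at hwS
    obtain ⟨hw2, hwA, hwB⟩ := hwS
    have hzw : z ∉ w.asIdeal := fun h => hwA (x0_mem hA h)
    have hδw : δ ∉ w.asIdeal := fun h => hwB (x0_mem hB h)
    have hvz : w.valuation F (z : F) = 1 := (w.valuation_eq_one_iff_notMem (K := F)).2 hzw
    have hvδ : w.valuation F (δ : F) = 1 := (w.valuation_eq_one_iff_notMem (K := F)).2 hδw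
    have hCns : ¬ IsSquare (w.valuation F C) := by
      intro h
      apply hWnot w hw
      rw [hC'eq, map_div₀, map_pow]
      exact h.div (IsSquare.sq _)
    have ht1 : w.valuation F t ≤ 1 := by
      by_contra hcon
      rw [not_le] at hcon
      apply hCns
      have h1 : w.valuation F (z : F) < w.valuation F (-((δ : F) * t ^ 2)) := by
        rw [Valuation.map_neg, hvz, map_mul, hvδ, one_mul, map_pow]
        exact one_lt_pow₀ hcon two_ne_zero
      have h2 : w.valuation F C = w.valuation F t ^ 2 := by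
        rw [hC, sub_eq_add_neg, Valuation.map_add_eq_of_lt_right _ h1, Valuation.map_neg, map_mul, hvδ, one_mul, map_pow]
      rw [h2]
      exact IsSquare.sq _
    have hC1 : w.valuation F C < 1 := by
      have h1 : w.valuation F C ≤ 1 := by
        rw [hC]
        refine Valuation.map_sub_le _ hvz.le ?_
        rw [map_mul, hvδ, one_mul, map_pow]
        exact pow_le_one₀ zero_le ht1
      refine lt_of_le_of_ne h1 fun h => hCns ?_
      rw [h]
      exact ⟨1, (mul_one 1).symm⟩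
    obtain ⟨t0, ht0⟩ := hr_int w t ht1
    have hmem : z - δ * t0 ^ 2 ∈ w.asIdeal := by
      rw [← HeightOneSpectrum.valuation_lt_one_iff_mem (K := F)]
      change w.valuation F ((z - δ * t0 ^ 2 : 𝓞 F) : F) < 1
      have e : ((z - δ * t0 ^ 2 : 𝓞 F) : F) = C + (δ : F) * ((t - t0) * (t + t0)) := by
        have : ((z - δ * t0 ^ 2 : 𝓞 F) : F) = (z : F) - δ * (t0 : F) ^ 2 := by
          simp only [map_sub, map_mul, map_pow]
        rw [this, hC]
        ring
      rw [e]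
      refine Valuation.map_add_lt _ hC1 ?_
      rw [map_mul, map_mul, hvδ, one_mul]
      refine mul_lt_one_of_lt_of_le ht0 ?_
      exact Valuation.map_add_le _ ht1 (w.valuation_le_one (K := F) t0)
    unfold TT.qr
    rw [if_neg fun h => (w.isPrime.mem_or_mem h).elim hzw hδw, if_pos]
    refine ⟨δ * t0, ?_⟩
    have e : (δ * t0) ^ 2 - z * δ = -δ * (z - δ * t0 ^ 2) := by ring
    rw [e]
    exact Ideal.mul_mem_left _ _ hmem
  have hprod : (∏ w ∈ W, TT.qr w z) * (∏ w ∈ W, TT.qr w δ) = 1 := by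
    rw [← Finset.prod_mul_distrib]
    apply Finset.prod_eq_one
    intro w hw
    rw [← hr_qr_mul w (hW2 w hw)]
    exact hsym w hw
  rw [hr_prod hodd hW hW2 hA (fun v hv => by
      rw [← hTc]
      exact hC'v v ((hSmem v).2 (Or.inr (Or.inl hv)))),
    hr_prod hodd hW hW2 hB (fun v hv => by
      rw [← hTc]
      exact hC'v v ((hSmem v).2 (Or.inr (Or.inr hv))))] at hprod
  -- all factors except at `p` are one
  have hone' : ∀ v ∈ S, v ≠ p → chd T c v = 1 := by
    intro v hv hvp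
    have h1 := hC'sq v hv hvp
    rw [hTc] at h1
    exact hr_chd h1
  have hA1 : ∀ v ∈ A, v ∈ S := fun v hv => (hSmem v).2 (Or.inr (Or.inl hv))
  have hB1 : ∀ v ∈ B, v ∈ S := fun v hv => (hSmem v).2 (Or.inr (Or.inr hv))
  have hchdp : chd T c p = 1 := by
    rcases hp with ⟨h1, h2⟩ | ⟨h1, h2⟩
    · rw [Finset.prod_eq_single_of_mem p h1 (fun v hv hvp => hone' v (hA1 v hv) hvp),
        Finset.prod_eq_one (s := B) (fun v hv => hone' v (hB1 v hv) (fun h => h2 (h ▸ hv))), mul_one] at hprod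
      exact hprod
    · rw [Finset.prod_eq_one (s := A) (fun v hv => hone' v (hA1 v hv) (fun h => h1 (h ▸ hv))), one_mul,
        Finset.prod_eq_single_of_mem p h2 (fun v hv hvp => hone' v (hB1 v hv) hvp)] at hprod
      exact hprod
  have hfinal := hr_chd' h2p (by rw [← hTc]; exact hC'v p hpS) hchdp
  rw [← hTc] at hfinal
  obtain ⟨s, hs⟩ := hfinal
  refine ⟨algebraMap F (p.adicCompletion F) x * s, algebraMap F (p.adicCompletion F) t, ?_⟩
  have h1 : algebraMap F (p.adicCompletion F) C = (algebraMap F (p.adicCompletion F) x * s) ^ 2 := by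
    rw [hCx, map_mul, map_pow, hs]
    ring
  rw [← h1, hCv]
  ring

end TRX2
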