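import Pool.Agent.TRX2.SL5

/-! # [ALL2-SL6] Hilbert reciprocity for norm forms -/

set_option autoImplicit false
set_option linter.unusedSectionVars false

open NumberField Ideal IsDedekindDomain
open scoped Classical

namespace TRX2

open WithZero TRX TU TT TRG TRP

theorem hr_par {a : WithZero (Multiplicative ℤ)} (ha : a ≠ 0) : IsSquare a ↔ Even (log a) := by
  constructor
  · rintro ⟨b, rfl⟩
    have hb : b ≠ 0 := fun h => ha (by rw [h, mul_zero])
    exact ⟨log b, log_mul hb hb⟩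
  · rintro ⟨k, hk⟩
    exact ⟨exp k, by rw [← exp_add, ← hk, exp_log ha]⟩

theorem hr_par_mul {a b : WithZero (Multiplicative ℤ)} (ha : a ≠ 0) (hb : b ≠ 0) :
    IsSquare (a * b) ↔ (IsSquare a ↔ IsSquare b) := by
  rw [hr_par ha, hr_par hb, hr_par (mul_ne_zero ha hb), log_mul ha hb, Int.even_add]

theorem hr_par_exp : ¬ IsSquare (exp (-1 : ℤ)) := by
  rw [hr_par exp_ne_zero, log_exp]
  decide

variable {F : Type} [Field F] [NumberField F] [IsTotallyComplex F]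

/-- square roots in the residue field -/
theorem hr_fr {p : HeightOneSpectrum (𝓞 F)} (h2 : (2 : 𝓞 F) ∈ p.asIdeal) {x : F} (hx : p.valuation F x ≤ 1) :
    ∃ b : 𝓞 F, p.valuation F (x - (b : F) ^ 2) < 1 := by
  obtain ⟨r, hr⟩ := hr_int p x hx
  obtain ⟨b, hb⟩ := bl_frob h2 r
  refine ⟨b, ?_⟩
  have h1 : p.valuation F ((r - b ^ 2 : 𝓞 F) : F) < 1 := (HeightOneSpectrum.valuation_lt_one_iff_mem (K := F) p _).2 hb
  have e : x - (b : F) ^ 2 = (x - r) + ((r - b ^ 2 : 𝓞 F) : F) := by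
    simp only [map_sub, map_pow]
    ring
  rw [e]
  exact Valuation.map_add_lt _ hr h1

theorem hr_lt_one {a : WithZero (Multiplicative ℤ)} (h : a < 1) : a ≤ exp (-1 : ℤ) := by
  by_cases ha : a = 0
  · rw [ha]
    exact zero_le
  rw [← exp_log ha, exp_le_exp]
  rw [← exp_log ha, ← exp_zero, exp_lt_exp] at h
  omega

/-- a unit which defines a ramified extension -/
theorem hr_ram {p : HeightOneSpectrum (𝓞 F)} (h2 : (2 : 𝓞 F) ∈ p.asIdeal) (hv2 : p.valuation F (2 : F) = exp (-1 : ℤ))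
    {a : 𝓞 F} (ha : a ∉ p.asIdeal) (hram : ¬ Ur p (a : F)) :
    ∃ (s : 𝓞 F) (e : F), (a : F) = (s : F) ^ 2 + e ∧ p.valuation F (s : F) = 1 ∧ p.valuation F e = exp (-1 : ℤ) := by
  obtain ⟨s, hs⟩ := bl_frob h2 a
  have hsp : s ∉ p.asIdeal := by
    intro h
    apply ha
    have e : a = (a - s ^ 2) + s * s := by ring
    rw [e]
    exact p.asIdeal.add_mem hs (p.asIdeal.mul_mem_left _ h)
  have hvs : p.valuation F (s : F) = 1 := (p.valuation_eq_one_iff_notMem (K := F)).2 hsp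
  have hs0 : (s : F) ≠ 0 := fun h => by
    rw [h, map_zero] at hvs
    exact zero_ne_one hvs
  have h1 : p.valuation F ((a - s ^ 2 : 𝓞 F) : F) < 1 := (HeightOneSpectrum.valuation_lt_one_iff_mem (K := F) p _).2 hs
  have e1 : ((a - s ^ 2 : 𝓞 F) : F) = (a : F) - (s : F) ^ 2 := by simp only [map_sub, map_pow]
  rw [e1] at h1
  refine ⟨s, (a : F) - (s : F) ^ 2, by ring, hvs, le_antisymm (hr_lt_one h1) ?_⟩
  by_contra hcon
  rw [not_le] at hcon
  apply hram
  have hv4 : p.valuation F (4 : F) = exp (-2 : ℤ) := by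
    have e : (4 : F) = 2 * 2 := by norm_num
    rw [e, map_mul, hv2, ← exp_add]
    norm_num
  have h4 : p.valuation F ((a : F) - (s : F) ^ 2) ≤ exp (-2 : ℤ) := by
    by_cases h0 : p.valuation F ((a : F) - (s : F) ^ 2) = 0
    · rw [h0]
      exact zero_le
    rw [← exp_log h0, exp_le_exp]
    rw [← exp_log h0, exp_lt_exp] at hcon
    omega
  refine TRH.ur_of_form p h2 (s := s) (c := ((a : F) - (s : F) ^ 2) / (4 * (s : F) ^ 2)) hs0 ?_ ?_
  · rw [map_div₀, map_mul, map_pow, hvs, one_pow, mul_one, hv4]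
    exact div_le_one_of_le₀ h4 zero_le
  · field_simp
    ring

/-- the class at `p`: `v_p(z δ)` odd -/
theorem hr_tp {p : HeightOneSpectrum (𝓞 F)} (h2 : (2 : 𝓞 F) ∈ p.asIdeal) (hv2 : p.valuation F (2 : F) = exp (-1 : ℤ))
    {z e g : F} {s : 𝓞 F} {m : ℤ} (hs : p.valuation F (s : F) = 1) (he : p.valuation F e = exp (-1 : ℤ))
    (hz : p.valuation F z = exp (-(2 * m + 1))) (hg : g = -((s : F) ^ 2 + e)) :
    ∃ t s' c : F, s' ≠ 0 ∧ p.valuation F c ≤ 1 ∧ z - g * t ^ 2 = (1 + 4 * c) * s' ^ 2 := by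
  have hv20 : (2 : F) ≠ 0 := two_ne_zero
  have hs0 : (s : F) ≠ 0 := fun h => by
    rw [h, map_zero] at hs
    exact zero_ne_one hs
  have he0 : e ≠ 0 := fun h => by
    rw [h, map_zero] at he
    exact exp_ne_zero he.symm
  have hv4 : p.valuation F (4 : F) = exp (-2 : ℤ) := by
    have e : (4 : F) = 2 * 2 := by norm_num
    rw [e, map_mul, hv2, ← exp_add]
    norm_num
  -- normalise the valuation of `z`
  obtain ⟨z1, hz1⟩ : ∃ z1 : F, z1 = z / ((2 : F) ^ m) ^ 2 := ⟨_, rfl⟩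
  have h2m : (2 : F) ^ m ≠ 0 := zpow_ne_zero m hv20
  have hzz : z = ((2 : F) ^ m) ^ 2 * z1 := by
    rw [hz1]
    field_simp
  have hvz1 : p.valuation F z1 = exp (-1 : ℤ) := by
    rw [hz1, map_div₀, hz, map_pow, map_zpow₀, hv2, ← exp_zsmul, ← exp_nsmul, ← exp_sub]
    congr 1
    simp only [smul_eq_mul, nsmul_eq_mul]
    push_cast
    ring
  have hq : p.valuation F (-z1 / e) = 1 := by
    rw [map_div₀, Valuation.map_neg, hvz1, he, div_self exp_ne_zero]
  obtain ⟨b, hb⟩ := hr_fr h2 (x := -z1 / e) hq.le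
  have hvb : p.valuation F (b : F) = 1 := by
    have h1 : p.valuation F ((b : F) ^ 2) = 1 := by
      have e1 : (b : F) ^ 2 = -z1 / e - (-z1 / e - (b : F) ^ 2) := by ring
      rw [e1, Valuation.map_sub_eq_of_lt_left _ (by rw [hq]; exact hb), hq]
    rw [map_pow] at h1
    exact (pow_eq_one_iff_of_nonneg zero_le two_ne_zero).1 h1
  have hb0 : (b : F) ≠ 0 := fun h => by
    rw [h, map_zero] at hvb
    exact zero_ne_one hvb
  have h5 : p.valuation F (z1 + e * (b : F) ^ 2) ≤ exp (-2 : ℤ) := by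
    have e1 : z1 + e * (b : F) ^ 2 = -e * (-z1 / e - (b : F) ^ 2) := by
      field_simp
      ring
    rw [e1, map_mul, Valuation.map_neg, he]
    have h6 := hr_lt_one hb
    calc exp (-1 : ℤ) * p.valuation F (-z1 / e - (b : F) ^ 2) ≤ exp (-1 : ℤ) * exp (-1 : ℤ) :=
        mul_le_mul_right h6 _
      _ = exp (-2 : ℤ) := by rw [← exp_add]; norm_num
  refine ⟨(2 : F) ^ m * b, (2 : F) ^ m * (s * b), (z1 + e * (b : F) ^ 2) / (4 * ((s : F) * b) ^ 2),
    mul_ne_zero h2m (mul_ne_zero hs0 hb0), ?_, ?_⟩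
  · rw [map_div₀, map_mul, map_pow, map_mul, hs, hvb, one_mul, one_pow, mul_one, hv4]
    exact div_le_one_of_le₀ h5 zero_le
  · rw [hzz, hg]
    field_simp
    ring

/-- the class at `p`: `v_p(δ)` odd, `z` a unit -/
theorem hr_tp' {p : HeightOneSpectrum (𝓞 F)} (h2 : (2 : 𝓞 F) ∈ p.asIdeal) (hv2 : p.valuation F (2 : F) = exp (-1 : ℤ))
    {g : F} {z : 𝓞 F} {m : ℤ} (hz : z ∉ p.asIdeal) (hg : p.valuation F g = exp (-(2 * m + 1))) :
    ∃ t s' c : F, s' ≠ 0 ∧ p.valuation F c ≤ 1 ∧ (z : F) - g * t ^ 2 = (1 + 4 * c) * s' ^ 2 := by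
  have hv20 : (2 : F) ≠ 0 := two_ne_zero
  obtain ⟨s, hs⟩ := bl_frob h2 z
  have hsp : s ∉ p.asIdeal := by
    intro h
    apply hz
    have e : z = (z - s ^ 2) + s * s := by ring
    rw [e]
    exact p.asIdeal.add_mem hs (p.asIdeal.mul_mem_left _ h)
  have hvs : p.valuation F (s : F) = 1 := (p.valuation_eq_one_iff_notMem (K := F)).2 hsp
  have hs0 : (s : F) ≠ 0 := fun h => by
    rw [h, map_zero] at hvs
    exact zero_ne_one hvs
  have h1 : p.valuation F ((z - s ^ 2 : 𝓞 F) : F) < 1 := (HeightOneSpectrum.valuation_lt_one_iff_mem (K := F) p _).2 hs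
  have e1 : ((z - s ^ 2 : 𝓞 F) : F) = (z : F) - (s : F) ^ 2 := by simp only [map_sub, map_pow]
  rw [e1] at h1
  have hv4 : p.valuation F (4 : F) = exp (-2 : ℤ) := by
    have e : (4 : F) = 2 * 2 := by norm_num
    rw [e, map_mul, hv2, ← exp_add]
    norm_num
  obtain ⟨g1, hg1⟩ : ∃ g1 : F, g1 = g / ((2 : F) ^ m) ^ 2 := ⟨_, rfl⟩
  have h2m : (2 : F) ^ m ≠ 0 := zpow_ne_zero m hv20
  have hgg : g = ((2 : F) ^ m) ^ 2 * g1 := by
    rw [hg1]
    field_simp
  have hvg1 : p.valuation F g1 = exp (-1 : ℤ) := by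
    rw [hg1, map_div₀, hg, map_pow, map_zpow₀, hv2, ← exp_zsmul, ← exp_nsmul, ← exp_sub]
    congr 1
    simp only [smul_eq_mul, nsmul_eq_mul]
    push_cast
    ring
  have hg10 : g1 ≠ 0 := fun h => by
    rw [h, map_zero] at hvg1
    exact exp_ne_zero hvg1.symm
  have hq : p.valuation F (((z : F) - (s : F) ^ 2) / g1) ≤ 1 := by
    rw [map_div₀, hvg1]
    exact div_le_one_of_le₀ (hr_lt_one h1) zero_le
  obtain ⟨b, hb⟩ := hr_fr h2 hq
  have h5 : p.valuation F (((z : F) - (s : F) ^ 2) - g1 * (b : F) ^ 2) ≤ exp (-2 : ℤ) := by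
    have e1 : ((z : F) - (s : F) ^ 2) - g1 * (b : F) ^ 2 = g1 * (((z : F) - (s : F) ^ 2) / g1 - (b : F) ^ 2) := by
      field_simp
    rw [e1, map_mul, hvg1]
    have h6 := hr_lt_one hb
    calc exp (-1 : ℤ) * p.valuation F (((z : F) - (s : F) ^ 2) / g1 - (b : F) ^ 2) ≤ exp (-1 : ℤ) * exp (-1 : ℤ) :=
        mul_le_mul_right h6 _
      _ = exp (-2 : ℤ) := by rw [← exp_add]; norm_num
  refine ⟨b / (2 : F) ^ m, s, (((z : F) - (s : F) ^ 2) - g1 * (b : F) ^ 2) / (4 * (s : F) ^ 2), hs0, ?_, ?_⟩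
  · rw [map_div₀, map_mul, map_pow, hvs, one_pow, mul_one, hv4]
    exact div_le_one_of_le₀ h5 zero_le
  · rw [hgg]
    field_simp
    ring

theorem hr_val_exact {v : HeightOneSpectrum (𝓞 F)} {δ : 𝓞 F} {h : ℕ} (h1 : δ ∈ v.asIdeal ^ h) (h2 : δ ∉ v.asIdeal ^ (h + 1)) :
    v.valuation F (δ : F) = exp (-(h : ℤ)) := by
  have hval : v.valuation F (δ : F) = v.intValuation δ := v.valuation_of_algebraMap δ
  have h3 : v.valuation F (δ : F) ≤ exp (-(h : ℤ)) := by
    rw [hval]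
    exact (v.intValuation_le_pow_iff_mem δ h).2 h1
  have h4 : ¬ v.valuation F (δ : F) ≤ exp (-((h + 1 : ℕ) : ℤ)) := fun h5 => h2 ((v.intValuation_le_pow_iff_mem δ (h + 1)).1 (by rwa [← hval]))
  have h0 : v.valuation F (δ : F) ≠ 0 := by
    intro h0
    apply h4
    rw [h0]
    exact zero_le
  rw [← exp_log h0] at h3 h4 ⊢
  rw [exp_le_exp] at h3 h4
  congr 1
  push_cast at h4
  omega

end TRX2
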