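import Pool.Agent.TRX2.SL6

/-! # [ALL2-SL7] Hilbert reciprocity for norm forms: the theorem -/

set_option autoImplicit false
set_option linter.unusedSectionVars false

open NumberField Ideal IsDedekindDomain
open scoped Classical

namespace TRX2

open WithZero TRX TU TT TRG TRP

variable {F : Type} [Field F] [NumberField F] [IsTotallyComplex F]

theorem hr_neg (a : 𝓞 F) : ((-a : 𝓞 F) : F) = -(a : F) := map_neg (algebraMap (𝓞 F) F) a

theorem hr_ur_mul {p : HeightOneSpectrum (𝓞 F)} {y a : F} (hy : y ≠ 0) (h : Ur p a) : Ur p (y ^ 2 * a) := by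
  obtain ⟨x, t, c, hx, h, ht⟩ := h
  exact ⟨y * x, t, c, mul_ne_zero hy hx, by rw [h]; ring, ht⟩

theorem hr_ur_iff {p : HeightOneSpectrum (𝓞 F)} {y a : F} (hy : y ≠ 0) : Ur p (y ^ 2 * a) ↔ Ur p a := by
  refine ⟨fun h => ?_, hr_ur_mul hy⟩
  have h1 := hr_ur_mul (inv_ne_zero hy) h
  rwa [inv_pow, inv_mul_cancel_left₀ (pow_ne_zero 2 hy)] at h1

/-- the two classes at `p` of different parity -/
theorem hrec1 (hodd : Odd (classNumber F)) {p : HeightOneSpectrum (𝓞 F)} (h2 : (2 : 𝓞 F) ∈ p.asIdeal)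
    (hv2 : p.valuation F (2 : F) = exp (-1 : ℤ)) {z δ : F} (hz : z ≠ 0) (hδ : δ ≠ 0) (hram : ¬ Ur p (-δ))
    (hpar : ¬ IsSquare (p.valuation F (z * δ))) (hloc : ∀ v, v ≠ p → NmAt v δ z) : NmAt p δ z := by
  obtain ⟨x, z', A, hx, hzx, hA⟩ := x0_step hodd hz
  obtain ⟨y, δ', B, hy, hδy, hB⟩ := x0_step hodd hδ
  have hz'0 : (z' : F) ≠ 0 := fun h => hz (by rw [hzx, h, mul_zero])
  have hδ'0 : (δ' : F) ≠ 0 := fun h => hδ (by rw [hδy, h, mul_zero])
  have hloc' : ∀ v, v ≠ p → NmAt v (δ' : F) (z' : F) := by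
    intro v hv
    have h1 := hloc v hv
    rw [hzx, mul_comm, hδy] at h1
    exact (h1.div_sq hx).scale hy
  have hvx : p.valuation F x ≠ 0 := (Valuation.ne_zero_iff _).2 hx
  have hvy : p.valuation F y ≠ 0 := (Valuation.ne_zero_iff _).2 hy
  have hvz : p.valuation F (z' : F) ≠ 0 := (Valuation.ne_zero_iff _).2 hz'0
  have hvδ : p.valuation F (δ' : F) ≠ 0 := (Valuation.ne_zero_iff _).2 hδ'0
  have hpar' : ¬ (IsSquare (p.valuation F (z' : F)) ↔ IsSquare (p.valuation F (δ' : F))) := by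
    rw [← hr_par_mul hvz hvδ]
    intro h
    apply hpar
    rw [hzx, hδy, map_mul, map_mul, map_mul, map_pow, map_pow]
    have e : p.valuation F x ^ 2 * p.valuation F (z' : F) * (p.valuation F y ^ 2 * p.valuation F (δ' : F)) =
        (p.valuation F x * p.valuation F y) ^ 2 * (p.valuation F (z' : F) * p.valuation F (δ' : F)) := by
      rw [mul_pow]
      exact mul_mul_mul_comm _ _ _ _
    rw [e]
    exact (IsSquare.sq _).mul h
  have hramd : ¬ Ur p (-(δ' : F)) := by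
    intro h
    apply hram
    rw [hδy, ← mul_neg]
    exact hr_ur_mul hy h
  have hin : ∀ {a : 𝓞 F} {A : Finset (HeightOneSpectrum (𝓞 F))}, span {a} = ∏ v ∈ A, v.asIdeal ^ classNumber F →
      p ∈ A → p.valuation F (a : F) = exp (-(classNumber F : ℤ)) := by
    intro a A hA hp
    obtain ⟨h1, h2⟩ := n2_exact hA p hp
    exact hr_val_exact h1 h2
  have hout : ∀ {a : 𝓞 F} {A : Finset (HeightOneSpectrum (𝓞 F))}, span {a} = ∏ v ∈ A, v.asIdeal ^ classNumber F →
      p ∉ A → a ∉ p.asIdeal := fun hA hp h => hp (x0_mem hA h)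
  obtain ⟨k, hk⟩ := hodd
  have hks : (classNumber F : ℤ) = 2 * (k : ℤ) + 1 := by
    rw [hk]
    push_cast
    ring
  have hodd : Odd (classNumber F) := ⟨k, hk⟩
  have hnsq : ¬ IsSquare (exp (-(classNumber F : ℤ))) := by
    rw [hr_par exp_ne_zero, log_exp, hks, Int.not_even_iff_odd]
    exact ⟨-(k : ℤ) - 1, by ring⟩
  have hfin : NmAt p (δ' : F) (z' : F) := by
    by_cases hpA : p ∈ A
    · have hpB : p ∉ B := by
        intro hpB
        apply hpar'
        rw [hin hA hpA, hin hB hpB]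
      refine hrec_core hodd h2 hA hB (Or.inl ⟨hpA, hpB⟩) hloc' ?_
      have h3 := hout hB hpB
      have h3' : -δ' ∉ p.asIdeal := fun h => h3 (neg_mem_iff.1 h)
      obtain ⟨s, e, hse, hs, he⟩ := hr_ram h2 hv2 h3' (by
        rw [hr_neg]
        exact hramd)
      refine hr_tp h2 hv2 (m := k) hs he ?_ ?_
      · rw [hin hA hpA, hks]
      · rw [hr_neg] at hse
        rw [← hse, neg_neg]
    · have hpB : p ∈ B := by
        by_contra hpB
        apply hpar'
        rw [(p.valuation_eq_one_iff_notMem (K := F)).2 (hout hA hpA), (p.valuation_eq_one_iff_notMem (K := F)).2 (hout hB hpB)]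
      refine hrec_core hodd h2 hA hB (Or.inr ⟨hpA, hpB⟩) hloc' ?_
      exact hr_tp' h2 hv2 (m := k) (hout hA hpA) (by rw [hin hB hpB, hks])
  obtain ⟨u, t, hut⟩ := hfin.scale' hy
  refine ⟨algebraMap F (p.adicCompletion F) x * u, algebraMap F (p.adicCompletion F) x * t, ?_⟩
  rw [hzx, map_mul, map_pow, hut, ← hδy]
  ring

/-- **Hilbert reciprocity**: an element which is a norm from `F(√-δ)` at all primes `≠ p` is a norm at `p`; `p` is a
prime above `2`, `2 ∉ p²`, and `F(√-δ)` is ramified at `p` -/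
theorem hrec (hodd : Odd (classNumber F)) {p : HeightOneSpectrum (𝓞 F)} (h2 : (2 : 𝓞 F) ∈ p.asIdeal)
    (hv2 : p.valuation F (2 : F) = exp (-1 : ℤ)) {z δ : F} (hz : z ≠ 0) (hδ : δ ≠ 0) (hram : ¬ Ur p (-δ))
    (hloc : ∀ v, v ≠ p → NmAt v δ z) : NmAt p δ z := by
  have hvz : p.valuation F z ≠ 0 := (Valuation.ne_zero_iff _).2 hz
  have hvδ : p.valuation F δ ≠ 0 := (Valuation.ne_zero_iff _).2 hδ
  by_cases hpar : IsSquare (p.valuation F (z * δ))
  swap
  · exact hrec1 hodd h2 hv2 hz hδ hram hpar hloc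
  rw [map_mul, hr_par_mul hvz hvδ] at hpar
  have key : ∀ n : F, n ≠ 0 → (∀ v : HeightOneSpectrum (𝓞 F), NmAt v δ n) → ¬ IsSquare (p.valuation F n) → NmAt p δ z := by
    intro n hn h1 h2'
    have h3 : NmAt p δ (z * n) := by
      refine hrec1 hodd h2 hv2 (mul_ne_zero hz hn) hδ hram ?_ fun v hv => (hloc v hv).mul (h1 v)
      have hvn : p.valuation F n ≠ 0 := (Valuation.ne_zero_iff _).2 hn
      rw [map_mul, map_mul, hr_par_mul (mul_ne_zero hvz hvn) hvδ, hr_par_mul hvz hvn]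
      tauto
    have h4 := h3.mul (h1 p)
    rw [mul_assoc, ← sq] at h4
    exact h4.div_sq hn
  by_cases hd : IsSquare (p.valuation F δ)
  swap
  · exact key δ hδ (fun v => NmAt.of_glob v (u := 0) (t := 1) (by ring)) hd
  obtain ⟨y, δ', B, hy, hδy, hB⟩ := x0_step hodd hδ
  have hpB : p ∉ B := by
    intro hp
    obtain ⟨h3, h4⟩ := n2_exact hB p hp
    apply n2_not_sq hodd p h3 h4
    rw [hδy, map_mul, map_pow, hr_par_mul (pow_ne_zero 2 ((Valuation.ne_zero_iff _).2 hy))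
      ((Valuation.ne_zero_iff _).2 fun h => hδ (by rw [hδy, h, mul_zero]))] at hd
    exact hd.1 (IsSquare.sq _)
  have h3 : -δ' ∉ p.asIdeal := fun h => hpB (x0_mem hB (neg_mem_iff.1 h))
  have hramd : ¬ Ur p (((-δ' : 𝓞 F)) : F) := by
    intro h
    apply hram
    rw [hr_neg] at h
    rw [hδy, ← mul_neg]
    exact hr_ur_mul hy h
  obtain ⟨s, e, hse, hs, he⟩ := hr_ram h2 hv2 h3 hramd
  rw [hr_neg] at hse
  have hs0 : (s : F) ≠ 0 := fun h => by
    rw [h, map_zero] at hs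
    exact zero_ne_one hs
  have he0 : e ≠ 0 := fun h => by
    rw [h, map_zero] at he
    exact exp_ne_zero he.symm
  refine key (-e / (s : F) ^ 2) (div_ne_zero (neg_ne_zero.2 he0) (pow_ne_zero 2 hs0)) (fun v => ?_) ?_
  · refine NmAt.of_glob v (u := 1) (t := 1 / (s * y)) ?_
    have h5 : (δ' : F) = -((s : F) ^ 2 + e) := by rw [← hse, neg_neg]
    rw [hδy, h5]
    field_simp
    ring
  · rw [map_div₀, Valuation.map_neg, he, map_pow, hs, one_pow, div_one]
    exact hr_par_exp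

end TRX2
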